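import Pool.Agent.Helper52.EK.Defs
set_option autoImplicit false
open Complex MeasureTheory Metric Set
open scoped Real ComplexConjugate

/-! Project EK, module E4b: the null Lagrangians `b' V + b V_eta` and `W_xi` on a rectangle of
the strip, with a cut-off in the first variable. -/

namespace Pool.Agent.Helper4.EK

open Pool.Agent.Helper52.EK

lemma pt_mem_Rect {x₁ x₂ ξ η : ℝ} (h1 : ξ ∈ Icc x₁ x₂) (h2 : η ∈ Icc 0 π) :
    pt ξ η ∈ Rect x₁ x₂ := by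
  constructor
  · simpa [pt] using h1
  · simpa [pt] using h2

lemma continuous_pt2 : Continuous (fun p : ℝ × ℝ => pt p.1 p.2) := by
  unfold pt
  fun_prop

lemma hasDerivAt_pt_xi (ξ η : ℝ) : HasDerivAt (fun t : ℝ => pt t η) 1 ξ := by
  have := (Complex.ofRealCLM.hasDerivAt (x := ξ)).add_const ((η : ℂ) * I)
  simpa [pt] using this

lemma hasDerivAt_pt_eta (ξ η : ℝ) : HasDerivAt (fun t : ℝ => pt ξ t) I η := by
  have := ((Complex.ofRealCLM.hasDerivAt (x := η)).mul_const I).const_add (ξ : ℂ)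
  simpa [pt] using this

lemma C1f.continuous {W Wx Wy : ℂ → ℝ} (hW : C1f W Wx Wy) : Continuous W :=
  continuous_iff_continuousAt.2 fun X => (hW.hd X).continuousAt

/-- chain rule in the second variable -/
lemma hasDerivAt_comp_eta {V Vx Vy : ℂ → ℝ} (hV : C1f V Vx Vy) {X : ℂ → ℂ} {ξ η : ℝ}
    (hX : DifferentiableAt ℂ X (pt ξ η)) :
    HasDerivAt (fun t => V (X (pt ξ t)))
      (-Vx (X (pt ξ η)) * (deriv X (pt ξ η)).im + Vy (X (pt ξ η)) * (deriv X (pt ξ η)).re) η := by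
  have h1 : HasDerivAt (fun t : ℝ => X (pt ξ t)) (deriv X (pt ξ η) * I) η :=
    hX.hasDerivAt.comp η (hasDerivAt_pt_eta ξ η)
  have h2 := (hV.hd (X (pt ξ η))).comp_hasDerivAt η h1
  refine h2.congr_deriv ?_
  simp

/-- chain rule in the first variable -/
lemma hasDerivAt_comp_xi {W Wx Wy : ℂ → ℝ} (hW : C1f W Wx Wy) {X : ℂ → ℂ} {ξ η : ℝ}
    (hX : DifferentiableAt ℂ X (pt ξ η)) :
    HasDerivAt (fun t => W (X (pt t η)))
      (Wx (X (pt ξ η)) * (deriv X (pt ξ η)).re + Wy (X (pt ξ η)) * (deriv X (pt ξ η)).im) ξ := by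
  have h1 : HasDerivAt (fun t : ℝ => X (pt t η)) (deriv X (pt ξ η) * 1) ξ :=
    hX.hasDerivAt.comp ξ (hasDerivAt_pt_xi ξ η)
  have h2 := (hW.hd (X (pt ξ η))).comp_hasDerivAt ξ h1
  refine h2.congr_deriv ?_
  simp

lemma continuousOn_Xpt {X : ℂ → ℂ} {x₁ x₂ : ℝ} (hX : AnalyticOnNhd ℂ X (Rect x₁ x₂)) :
    ContinuousOn (fun p : ℝ × ℝ => X (pt p.1 p.2)) (Icc x₁ x₂ ×ˢ Icc 0 π) :=
  hX.continuousOn.comp continuous_pt2.continuousOn fun p hp => pt_mem_Rect hp.1 hp.2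

lemma continuousOn_dXpt {X : ℂ → ℂ} {x₁ x₂ : ℝ} (hX : AnalyticOnNhd ℂ X (Rect x₁ x₂)) :
    ContinuousOn (fun p : ℝ × ℝ => deriv X (pt p.1 p.2)) (Icc x₁ x₂ ×ˢ Icc 0 π) :=
  hX.deriv.continuousOn.comp continuous_pt2.continuousOn fun p hp => pt_mem_Rect hp.1 hp.2

lemma swap_of_continuousOn {F : ℝ → ℝ → ℝ} {x₁ x₂ y₁ y₂ : ℝ} (hx : x₁ ≤ x₂) (hy : y₁ ≤ y₂)
    (hF : ContinuousOn (fun p : ℝ × ℝ => F p.1 p.2) (Icc x₁ x₂ ×ˢ Icc y₁ y₂)) :
    ∫ ξ in x₁..x₂, ∫ η in y₁..y₂, F ξ η = ∫ η in y₁..y₂, ∫ ξ in x₁..x₂, F ξ η := by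
  apply intervalIntegral_intervalIntegral_swap
  have h1 : IntegrableOn (fun p : ℝ × ℝ => F p.1 p.2) (Icc x₁ x₂ ×ˢ Icc y₁ y₂) :=
    hF.integrableOn_compact (isCompact_Icc.prod isCompact_Icc)
  rw [uIoc_of_le hx, uIoc_of_le hy]
  exact h1.mono_set (prod_mono Ioc_subset_Icc_self Ioc_subset_Icc_self)

/-- E4b, first half -/
theorem nullV {V Vx Vy : ℂ → ℝ} (hV : C1f V Vx Vy) {X : ℂ → ℂ} {x₁ x₂ : ℝ}
    (hx : x₁ ≤ x₂) (hX : AnalyticOnNhd ℂ X (Rect x₁ x₂))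
    {χ : ℝ → ℝ} (hχ : Continuous χ) {b b₁ : ℝ → ℝ} (g1 : ∀ η, HasDerivAt b (b₁ η) η)
    (g1c : Continuous b₁) (f1 : b 0 = 0) (f2 : b π = 0) :
    II x₁ x₂ (fun ξ η => χ ξ * (b η * (-Vx (X (pt ξ η)) * (deriv X (pt ξ η)).im
      + Vy (X (pt ξ η)) * (deriv X (pt ξ η)).re) + b₁ η * V (X (pt ξ η)))) = 0 := by
  have _ := hχ
  unfold II
  rw [intervalIntegral.integral_congr (g := fun _ => (0:ℝ))]
  · simp
  intro ξ hξ
  rw [uIcc_of_le hx] at hξ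
  simp only [intervalIntegral.integral_const_mul]
  have hpi : (0:ℝ) ≤ π := Real.pi_pos.le
  have cX : ContinuousOn (fun η : ℝ => X (pt ξ η)) (uIcc 0 π) := by
    have := continuousOn_Xpt hX
    refine this.comp (f := fun η : ℝ => (ξ, η)) (by fun_prop) ?_
    intro η hη
    rw [uIcc_of_le hpi] at hη
    exact ⟨hξ, hη⟩
  have cY : ContinuousOn (fun η : ℝ => deriv X (pt ξ η)) (uIcc 0 π) := by
    have := continuousOn_dXpt hX
    refine this.comp (f := fun η : ℝ => (ξ, η)) (by fun_prop) ?_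
    intro η hη
    rw [uIcc_of_le hpi] at hη
    exact ⟨hξ, hη⟩
  have bc : Continuous b := continuous_iff_continuousAt.2 fun η => (g1 η).continuousAt
  have key : ∫ η in (0:ℝ)..π, (b η * (-Vx (X (pt ξ η)) * (deriv X (pt ξ η)).im
      + Vy (X (pt ξ η)) * (deriv X (pt ξ η)).re) + b₁ η * V (X (pt ξ η))) =
      b π * V (X (pt ξ π)) - b 0 * V (X (pt ξ 0)) := by
    refine intervalIntegral.integral_eq_sub_of_hasDerivAt
      (f := fun η => b η * V (X (pt ξ η))) ?_ ?_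
    · intro η hη
      rw [uIcc_of_le hpi] at hη
      have hd := hasDerivAt_comp_eta hV ((hX _ (pt_mem_Rect hξ hη)).differentiableAt)
      exact ((g1 η).mul hd).congr_deriv (by ring)
    · apply ContinuousOn.intervalIntegrable
      have c1 : ContinuousOn (fun η : ℝ => Vx (X (pt ξ η))) (uIcc 0 π) :=
        hV.cx.comp_continuousOn cX
      have c2 : ContinuousOn (fun η : ℝ => Vy (X (pt ξ η))) (uIcc 0 π) :=
        hV.cy.comp_continuousOn cX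
      have c3 : ContinuousOn (fun η : ℝ => V (X (pt ξ η))) (uIcc 0 π) :=
        (C1f.continuous hV).comp_continuousOn cX
      have c4 : ContinuousOn (fun η : ℝ => (deriv X (pt ξ η)).re) (uIcc 0 π) :=
        Complex.continuous_re.comp_continuousOn cY
      have c5 : ContinuousOn (fun η : ℝ => (deriv X (pt ξ η)).im) (uIcc 0 π) :=
        Complex.continuous_im.comp_continuousOn cY
      exact (bc.continuousOn.mul ((c1.neg.mul c5).add (c2.mul c4))).add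
        (g1c.continuousOn.mul c3)
  rw [key, f1, f2]
  simp

/-- E4b, second half -/
theorem nullW {W Wx Wy : ℂ → ℝ} (hW : C1f W Wx Wy) {X : ℂ → ℂ} {x₁ x₂ : ℝ}
    (hx : x₁ ≤ x₂) (hX : AnalyticOnNhd ℂ X (Rect x₁ x₂))
    {χ χ₁ : ℝ → ℝ} (h1 : ∀ ξ, HasDerivAt χ (χ₁ ξ) ξ) (h1c : Continuous χ₁)
    (e1 : χ x₁ = 0) (e2 : χ x₂ = 0) {b : ℝ → ℝ} (hb : Continuous b) :
    II x₁ x₂ (fun ξ η => χ ξ * (b η * (Wx (X (pt ξ η)) * (deriv X (pt ξ η)).re
      + Wy (X (pt ξ η)) * (deriv X (pt ξ η)).im))) =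
    - II x₁ x₂ (fun ξ η => χ₁ ξ * (b η * W (X (pt ξ η)))) := by
  have hpi : (0:ℝ) ≤ π := Real.pi_pos.le
  have χc : Continuous χ := continuous_iff_continuousAt.2 fun ξ => (h1 ξ).continuousAt
  have cX := continuousOn_Xpt hX
  have cY := continuousOn_dXpt hX
  have c1 : ContinuousOn (fun p : ℝ × ℝ => Wx (X (pt p.1 p.2))) (Icc x₁ x₂ ×ˢ Icc 0 π) :=
    hW.cx.comp_continuousOn cX
  have c2 : ContinuousOn (fun p : ℝ × ℝ => Wy (X (pt p.1 p.2))) (Icc x₁ x₂ ×ˢ Icc 0 π) :=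
    hW.cy.comp_continuousOn cX
  have c3 : ContinuousOn (fun p : ℝ × ℝ => W (X (pt p.1 p.2))) (Icc x₁ x₂ ×ˢ Icc 0 π) :=
    (C1f.continuous hW).comp_continuousOn cX
  have c4 : ContinuousOn (fun p : ℝ × ℝ => (deriv X (pt p.1 p.2)).re)
      (Icc x₁ x₂ ×ˢ Icc 0 π) := Complex.continuous_re.comp_continuousOn cY
  have c5 : ContinuousOn (fun p : ℝ × ℝ => (deriv X (pt p.1 p.2)).im)
      (Icc x₁ x₂ ×ˢ Icc 0 π) := Complex.continuous_im.comp_continuousOn cY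
  have bc : ContinuousOn (fun p : ℝ × ℝ => b p.2) (Icc x₁ x₂ ×ˢ Icc 0 π) :=
    (hb.comp continuous_snd).continuousOn
  have cc : ContinuousOn (fun p : ℝ × ℝ => χ p.1) (Icc x₁ x₂ ×ˢ Icc 0 π) :=
    (χc.comp continuous_fst).continuousOn
  have cc1 : ContinuousOn (fun p : ℝ × ℝ => χ₁ p.1) (Icc x₁ x₂ ×ˢ Icc 0 π) :=
    (h1c.comp continuous_fst).continuousOn
  have C1 : ContinuousOn (fun p : ℝ × ℝ => χ p.1 * (b p.2 * (Wx (X (pt p.1 p.2)) *
      (deriv X (pt p.1 p.2)).re + Wy (X (pt p.1 p.2)) * (deriv X (pt p.1 p.2)).im)))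
      (Icc x₁ x₂ ×ˢ Icc 0 π) := cc.mul (bc.mul ((c1.mul c4).add (c2.mul c5)))
  have C2 : ContinuousOn (fun p : ℝ × ℝ => χ₁ p.1 * (b p.2 * W (X (pt p.1 p.2))))
      (Icc x₁ x₂ ×ˢ Icc 0 π) := cc1.mul (bc.mul c3)
  have S1 := swap_of_continuousOn (F := fun ξ η => χ ξ * (b η * (Wx (X (pt ξ η)) *
      (deriv X (pt ξ η)).re + Wy (X (pt ξ η)) * (deriv X (pt ξ η)).im))) hx hpi C1
  have S2 := swap_of_continuousOn (F := fun ξ η => χ₁ ξ * (b η * W (X (pt ξ η)))) hx hpi C2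
  unfold II
  rw [S1, S2, ← intervalIntegral.integral_neg]
  apply intervalIntegral.integral_congr
  intro η hη
  rw [uIcc_of_le hpi] at hη
  have hsub : MapsTo (fun ξ : ℝ => (ξ, η)) (uIcc x₁ x₂) (Icc x₁ x₂ ×ˢ Icc 0 π) := by
    intro ξ hξ
    rw [uIcc_of_le hx] at hξ
    exact ⟨hξ, hη⟩
  have D1 : ContinuousOn (fun ξ : ℝ => χ ξ * (b η * (Wx (X (pt ξ η)) *
      (deriv X (pt ξ η)).re + Wy (X (pt ξ η)) * (deriv X (pt ξ η)).im))) (uIcc x₁ x₂) :=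
    C1.comp (f := fun ξ : ℝ => (ξ, η)) (by fun_prop) hsub
  have D2 : ContinuousOn (fun ξ : ℝ => χ₁ ξ * (b η * W (X (pt ξ η)))) (uIcc x₁ x₂) :=
    C2.comp (f := fun ξ : ℝ => (ξ, η)) (by fun_prop) hsub
  have key : ∫ ξ in x₁..x₂, (χ₁ ξ * (b η * W (X (pt ξ η))) + χ ξ * (b η * (Wx (X (pt ξ η)) *
      (deriv X (pt ξ η)).re + Wy (X (pt ξ η)) * (deriv X (pt ξ η)).im))) =
      χ x₂ * (b η * W (X (pt x₂ η))) - χ x₁ * (b η * W (X (pt x₁ η))) := by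
    refine intervalIntegral.integral_eq_sub_of_hasDerivAt
      (f := fun ξ => χ ξ * (b η * W (X (pt ξ η)))) ?_ (D2.add D1).intervalIntegrable
    intro ξ hξ
    rw [uIcc_of_le hx] at hξ
    have hd := hasDerivAt_comp_xi hW ((hX _ (pt_mem_Rect hξ hη)).differentiableAt)
    exact ((h1 ξ).mul (hd.const_mul (b η)))
  rw [intervalIntegral.integral_add D2.intervalIntegrable D1.intervalIntegrable, e1, e2] at key
  simp only [zero_mul, sub_zero] at key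
  linarith

end Pool.Agent.Helper4.EK
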